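import Pool.Agent.J4H51.LR.Rank

/-!
# The bound for bipartite relations
-/

set_option autoImplicit false
set_option linter.unusedSectionVars false

namespace Pool.Agent.J4H51.LR

open Finset Matrix

variable {X Y : Type} [Fintype X] [Fintype Y] (E : X → Y → Prop) [∀ x y, Decidable (E x y)]

/-- at most `t` columns contain `k` given rows -/
def Free (k t : ℕ) : Prop := ∀ S : Finset X, S.card = k →
  (univ.filter fun y => ∀ x ∈ S, E x y).card ≤ t

theorem Free.succ {k t : ℕ} (h : Free E k t) : Free E (k + 1) t := by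
  intro S hS
  obtain ⟨S', hS', hc⟩ := exists_subset_card_eq (s := S) (n := k) (by omega)
  refine le_trans (card_le_card fun y hy => ?_) (h S' hc)
  rw [mem_filter] at hy ⊢
  exact ⟨mem_univ _, fun x hx => hy.2 x (hS' hx)⟩

/-- the entries of the matrix -/
structure Wt (A : Matrix X Y ℝ) (K : ℝ) : Prop where
  zero : ∀ x y, ¬ E x y → A x y = 0
  one : ∀ x y, E x y → 1 ≤ |A x y|
  le : ∀ x y, |A x y| ≤ K

theorem choose_sum (s t : ℕ) (hf : Free E s t) :
    ∑ y, ((cod E y y).choose s : ℝ) ≤ t * (Fintype.card X : ℝ) ^ s := by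
  have h0 : ∀ y, ((cod E y y).choose s : ℝ) = ∑ S ∈ powersetCard s (univ : Finset X),
      (if ∀ x ∈ S, E x y then (1 : ℝ) else 0) := by
    intro y
    rw [cod, ← card_powersetCard]
    have e1 : powersetCard s (univ.filter fun x => E x y ∧ E x y) =
        (powersetCard s (univ : Finset X)).filter fun S => ∀ x ∈ S, E x y := by
      ext S
      simp only [mem_powersetCard, mem_filter, subset_iff, mem_univ, true_and]
      constructor
      · rintro ⟨h1, h2⟩
        exact ⟨⟨fun _ _ => trivial, h2⟩, fun x hx => (h1 hx).1⟩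
      · rintro ⟨⟨_, h2⟩, h3⟩
        exact ⟨fun x hx => ⟨h3 x hx, h3 x hx⟩, h2⟩
    rw [e1, card_filter]
    push_cast
    rfl
  simp only [h0]
  rw [sum_comm]
  have h1 : ∀ S ∈ powersetCard s (univ : Finset X),
      ∑ y, (if ∀ x ∈ S, E x y then (1 : ℝ) else 0) ≤ t := by
    intro S hS
    have h2 := hf S (mem_powersetCard.1 hS).2
    rw [card_filter] at h2
    exact_mod_cast h2
  refine (sum_le_sum h1).trans ?_
  rw [sum_const, nsmul_eq_mul, card_powersetCard, card_univ, mul_comm]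
  refine mul_le_mul_of_nonneg_left ?_ (Nat.cast_nonneg _)
  exact_mod_cast Nat.choose_le_pow _ _

/-- the Kővári-Sós-Turán bound -/
theorem kst (s t : ℕ) (hs : 1 ≤ s) (hf : Free E s t) (Z : Finset Y) :
    (∑ y ∈ Z, (cod E y y : ℝ)) ^ s ≤
      (Z.card : ℝ) ^ (s - 1) * ((2 * s) ^ s * (t * (Fintype.card X : ℝ) ^ s + Z.card)) := by
  obtain ⟨k, rfl⟩ : ∃ k, s = k + 1 := ⟨s - 1, by omega⟩
  have h2 : (∑ y ∈ Z, (cod E y y : ℝ)) ^ (k + 1) ≤
      (Z.card : ℝ) ^ k * ∑ y ∈ Z, (cod E y y : ℝ) ^ (k + 1) :=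
    pow_sum_le_card_mul_sum_pow (fun _ _ => Nat.cast_nonneg _) k
  rw [Nat.add_sub_cancel]
  refine h2.trans (mul_le_mul_of_nonneg_left ?_ (by positivity))
  have h3 : ∑ y ∈ Z, (cod E y y : ℝ) ^ (k + 1) ≤
      ∑ y ∈ Z, ((2 * (k + 1 : ℕ)) ^ (k + 1) * ((cod E y y).choose (k + 1) + 1 : ℝ)) := by
    refine sum_le_sum fun y _ => ?_
    exact_mod_cast pow_le_choose (cod E y y) (k + 1)
  refine h3.trans ?_
  rw [← mul_sum, sum_add_distrib, sum_const, nsmul_eq_mul, mul_one]
  refine mul_le_mul_of_nonneg_left ?_ (by positivity)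
  have h4 : ∑ y ∈ Z, ((cod E y y).choose (k + 1) : ℝ) ≤ ∑ y, ((cod E y y).choose (k + 1) : ℝ) :=
    sum_le_sum_of_subset_of_nonneg (subset_univ _) fun _ _ _ => Nat.cast_nonneg _
  have h5 := choose_sum E (k + 1) t hf
  linarith

end Pool.Agent.J4H51.LR
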