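import Mathlib.Combinatorics.SimpleGraph.Finite
import Mathlib.Combinatorics.SimpleGraph.DegreeSum
import Mathlib.Data.Fintype.Pi
import Mathlib.Data.Fintype.BigOperators
import Mathlib.Tactic

/-!
# A cut with half of the edges
-/

set_option autoImplicit false
set_option linter.unusedSectionVars false

namespace Pool.Agent.J4H51.LR

open Finset

variable {V : Type} [Fintype V] [DecidableEq V]

theorem count_pair (x y : V) (h : x ≠ y) :
    4 * (univ.filter fun σ : V → Bool => σ x = true ∧ σ y = false).card =
      2 ^ Fintype.card V := by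
  have h1 : (univ.filter fun σ : V → Bool => σ x = true ∧ σ y = false) =
      Fintype.piFinset fun v => if v = x then {true} else if v = y then {false} else univ := by
    ext σ
    simp only [mem_filter, mem_univ, true_and, Fintype.mem_piFinset]
    constructor
    · rintro ⟨h2, h3⟩ v
      by_cases hx : v = x
      · subst hx
        simp [h2]
      · by_cases hy : v = y
        · subst hy
          simp [hx, h3]
        · simp [hx, hy]
    · intro h2
      have h3 := h2 x
      have h4 := h2 y
      simp only [if_true, mem_singleton] at h3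
      simp only [h.symm, if_false, if_true, mem_singleton] at h4
      exact ⟨h3, h4⟩
  rw [h1, Fintype.card_piFinset]
  have h2 : (2 : ℕ) ^ Fintype.card V = ∏ _v : V, 2 := by
    rw [prod_const, card_univ]
  have h3 : (4 : ℕ) = (∏ v : V, if v = x then 2 else 1) * ∏ v : V, if v = y then 2 else 1 := by
    rw [prod_ite_eq' univ x, prod_ite_eq' univ y]
    simp
  rw [h2, h3, ← prod_mul_distrib, ← prod_mul_distrib]
  refine prod_congr rfl fun v _ => ?_
  by_cases hx : v = x
  · subst hx
    simp [h]
  · by_cases hy : v = y
    · subst hy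
      simp [hx]
    · simp [hx, hy]

/-- the number of the edges from `σ = true` to `σ = false` -/
def cut (G : SimpleGraph V) [DecidableRel G.Adj] (σ : V → Bool) : ℕ :=
  ∑ x, ∑ y, if G.Adj x y ∧ σ x = true ∧ σ y = false then 1 else 0

theorem exists_cut (G : SimpleGraph V) [DecidableRel G.Adj] :
    ∃ σ : V → Bool, G.edgeFinset.card ≤ 2 * cut G σ := by
  by_contra hcon
  push Not at hcon
  have h1 : ∑ σ : V → Bool, cut G σ = ∑ x, ∑ y, if G.Adj x y then
      (univ.filter fun σ : V → Bool => σ x = true ∧ σ y = false).card else 0 := by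
    unfold cut
    rw [sum_comm]
    refine sum_congr rfl fun x _ => ?_
    rw [sum_comm]
    refine sum_congr rfl fun y _ => ?_
    split_ifs with h
    · rw [card_filter]
      exact sum_congr rfl fun σ _ => by simp [h]
    · exact sum_eq_zero fun σ _ => by simp [h]
  have h2 : 4 * ∑ σ : V → Bool, cut G σ =
      2 ^ Fintype.card V * ∑ x, ∑ y, if G.Adj x y then 1 else 0 := by
    rw [h1, mul_sum, mul_sum]
    refine sum_congr rfl fun x _ => ?_
    rw [mul_sum, mul_sum]
    refine sum_congr rfl fun y _ => ?_
    split_ifs with h
    · rw [count_pair x y h.ne, mul_one]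
    · simp
  have h3 : ∑ x, ∑ y, (if G.Adj x y then 1 else 0) = 2 * G.edgeFinset.card := by
    rw [← G.sum_degrees_eq_twice_card_edges]
    refine sum_congr rfl fun x _ => ?_
    rw [← card_filter, ← SimpleGraph.card_neighborFinset_eq_degree]
    congr 1
    ext y
    simp
  have h4 : ∑ σ : V → Bool, 2 * cut G σ < ∑ _σ : V → Bool, G.edgeFinset.card :=
    sum_lt_sum_of_nonempty univ_nonempty fun σ _ => hcon σ
  rw [← mul_sum, sum_const, card_univ, Fintype.card_fun, Fintype.card_bool, smul_eq_mul] at h4
  rw [h3] at h2
  have h5 : 2 ^ Fintype.card V * (2 * G.edgeFinset.card) =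
      2 * (2 ^ Fintype.card V * G.edgeFinset.card) := by ring
  omega

end Pool.Agent.J4H51.LR
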