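import Pool.Agent.J4H51.LR.Odd
import Pool.Agent.J4H51.LR.Cut
import Mathlib.Combinatorics.SimpleGraph.AdjMatrix
import Mathlib.LinearAlgebra.Eigenspace.Basic

/-!
# Graphs without `K_{s,t}` of small rank
-/

set_option autoImplicit false
set_option linter.unusedSectionVars false

namespace Pool.Agent.J4H51.LR

open Finset Matrix

/-- the bipartite bound -/
theorem bip (s t : ℕ) (hs : 2 ≤ s) (K : ℝ) (hK : 1 ≤ K) : ∃ C : ℝ, 0 ≤ C ∧
    ∀ (X Y : Type) [Fintype X] [Fintype Y] (E : X → Y → Prop) [∀ x y, Decidable (E x y)]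
      (A : Matrix X Y ℝ) (N : ℝ), Free E s t → Wt E A K → 1 ≤ N →
      (Fintype.card X : ℝ) ≤ N → (Fintype.card Y : ℝ) ≤ N →
      ∑ y, (cod E y y : ℝ) ≤ C * N * √(A.rank) ^ (s - 1) := by
  rcases Nat.even_or_odd' s with ⟨r, hr | hr⟩
  · obtain ⟨C, hC, h⟩ := bip_even r t (by omega) K hK
    refine ⟨C, hC, ?_⟩
    intro X Y _ _ E _ A N hf hA hN hX hY
    rw [hr] at hf ⊢
    exact h X Y E A N hf hA hN hX hY
  · obtain ⟨C, hC, h⟩ := bip_odd r t (by omega) K hK
    refine ⟨C, hC, ?_⟩
    intro X Y _ _ E _ A N hf hA hN hX hY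
    rw [hr] at hf ⊢
    refine (h X Y E A N hf hA hN hX hY).trans (le_of_eq ?_)
    rw [Nat.add_sub_cancel, pow_mul, Real.sq_sqrt (Nat.cast_nonneg _), mul_assoc]

variable {V : Type} [Fintype V] [DecidableEq V]

/-- no `K_{s,t}` -/
theorem free_of (G : SimpleGraph V) [DecidableRel G.Adj] (s t : ℕ)
    (hG : (completeBipartiteGraph (Fin s) (Fin t)).Free G) (S : Finset V) (hS : S.card = s) :
    (univ.filter fun y => ∀ x ∈ S, G.Adj x y).card ≤ t := by
  by_contra hcon
  push Not at hcon
  obtain ⟨B, hB, hBc⟩ := exists_subset_card_eq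
    (s := univ.filter fun y => ∀ x ∈ S, G.Adj x y) (n := t) hcon.le
  set f : Fin s → V := fun i => ((Finset.equivFinOfCardEq hS).symm i : V) with hf
  set g : Fin t → V := fun j => ((Finset.equivFinOfCardEq hBc).symm j : V) with hg
  have hfi : Function.Injective f := Subtype.val_injective.comp (Equiv.injective _)
  have hgi : Function.Injective g := Subtype.val_injective.comp (Equiv.injective _)
  have hadj : ∀ i j, G.Adj (f i) (g j) := fun i j =>
    (mem_filter.1 (hB (Subtype.prop ((Finset.equivFinOfCardEq hBc).symm j)))).2 _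
      (Subtype.prop ((Finset.equivFinOfCardEq hS).symm i))
  apply hG
  refine ⟨⟨⟨Sum.elim f g, ?_⟩, ?_⟩⟩
  · intro a b hab
    rcases a with a | a <;> rcases b with b | b
    · simp [completeBipartiteGraph] at hab
    · exact hadj a b
    · exact (hadj b a).symm
    · simp [completeBipartiteGraph] at hab
  · intro a b hab
    rcases a with a | a <;> rcases b with b | b
    · change f a = f b at hab
      rw [hfi hab]
    · change f a = g b at hab
      exact absurd (hadj a b) (by rw [hab]; exact G.irrefl)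
    · change g a = f b at hab
      exact absurd (hadj b a) (by rw [hab]; exact G.irrefl)
    · change g a = g b at hab
      rw [hgi hab]

/-- the entries at different vertices -/
def Weights (K : ℝ) (G : SimpleGraph V) (M : Matrix V V ℝ) : Prop :=
  (∀ x y, G.Adj x y → 1 ≤ |M x y| ∧ |M x y| ≤ K) ∧ ∀ x y, x ≠ y → ¬ G.Adj x y → M x y = 0

theorem graph_bound (s t : ℕ) (hs : 2 ≤ s) (K : ℝ) : ∃ C : ℝ, 0 ≤ C ∧
    ∀ (V : Type) [Fintype V] [DecidableEq V] (G : SimpleGraph V) [DecidableRel G.Adj]
      (M : Matrix V V ℝ), (completeBipartiteGraph (Fin s) (Fin t)).Free G → Weights K G M →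
      (G.edgeFinset.card : ℝ) ≤ C * Fintype.card V * √(M.rank) ^ (s - 1) := by
  obtain ⟨C, hC, h⟩ := bip s t hs (max K 1) (le_max_right _ _)
  refine ⟨2 * C, by positivity, ?_⟩
  intro V _ _ G _ M hG hM
  rcases Nat.eq_zero_or_pos (Fintype.card V) with hV | hV
  · have : IsEmpty V := Fintype.card_eq_zero_iff.1 hV
    have e1 : G.edgeFinset.card = 0 := by
      rw [card_eq_zero, SimpleGraph.edgeFinset_eq_empty]
      exact Subsingleton.elim _ _
    rw [e1]
    push_cast
    positivity
  obtain ⟨σ, hσ⟩ := exists_cut G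
  set E : V → V → Prop := fun x y => G.Adj x y ∧ σ x = true ∧ σ y = false with hE
  set a : V → ℝ := fun x => if σ x = true then 1 else 0 with ha
  set b : V → ℝ := fun y => if σ y = false then 1 else 0 with hb
  set A : Matrix V V ℝ := diagonal a * M * diagonal b with hA
  have hAe : ∀ x y, A x y = a x * M x y * b y := by
    intro x y
    rw [hA, mul_diagonal, diagonal_mul]
  have hrank : A.rank ≤ M.rank :=
    (rank_mul_le_left _ _).trans (rank_mul_le_right _ _)
  have hfree : Free E s t := by
    intro S hS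
    refine le_trans (card_le_card fun y hy => ?_) (free_of G s t hG S hS)
    simp only [mem_filter, mem_univ, true_and] at hy ⊢
    exact fun x hx => (hy x hx).1
  have hwt : Wt E A (max K 1) := by
    have hz : ∀ x y, ¬ E x y → A x y = 0 := by
      intro x y hxy
      rw [hAe, ha, hb]
      by_cases h1 : σ x = true
      · by_cases h2 : σ y = false
        · have h3 : ¬ G.Adj x y := fun h4 => hxy ⟨h4, h1, h2⟩
          have h4 : x ≠ y := by
            rintro rfl
            rw [h1] at h2
            exact Bool.noConfusion h2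
          rw [hM.2 x y h4 h3]
          simp
        · simp [h2]
      · simp [h1]
    have ho : ∀ x y, E x y → A x y = M x y := by
      rintro x y ⟨_, h1, h2⟩
      rw [hAe, ha, hb]
      simp [h1, h2]
    refine ⟨hz, fun x y hxy => ?_, fun x y => ?_⟩
    · rw [ho x y hxy]
      exact (hM.1 x y hxy.1).1
    · by_cases hxy : E x y
      · rw [ho x y hxy]
        exact (hM.1 x y hxy.1).2.trans (le_max_left _ _)
      · rw [hz x y hxy, abs_zero]
        exact le_trans zero_le_one (le_max_right _ _)
  have hn1 : (1 : ℝ) ≤ Fintype.card V := by exact_mod_cast hV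
  have h1 := h V V E A (Fintype.card V) hfree hwt hn1 le_rfl le_rfl
  have h2 : (cut G σ : ℝ) = ∑ y, (cod E y y : ℝ) := by
    unfold cut cod
    push_cast
    rw [sum_comm]
    refine sum_congr rfl fun y _ => ?_
    rw [card_filter]
    push_cast
    refine sum_congr rfl fun x _ => ?_
    simp only [hE, and_self]
  have h3 : (G.edgeFinset.card : ℝ) ≤ 2 * (cut G σ : ℝ) := by exact_mod_cast hσ
  have h4 : √(A.rank : ℝ) ^ (s - 1) ≤ √(M.rank : ℝ) ^ (s - 1) :=
    pow_le_pow_left₀ (Real.sqrt_nonneg _) (Real.sqrt_le_sqrt (by exact_mod_cast hrank)) _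
  calc (G.edgeFinset.card : ℝ) ≤ 2 * (cut G σ : ℝ) := h3
    _ ≤ 2 * (C * Fintype.card V * √(A.rank) ^ (s - 1)) := by
        rw [h2]
        linarith
    _ ≤ 2 * (C * Fintype.card V * √(M.rank) ^ (s - 1)) := by
        refine mul_le_mul_of_nonneg_left (mul_le_mul_of_nonneg_left h4 (by positivity)) (by norm_num)
    _ = _ := by ring

/-- the rank of `A - c` -/
theorem rank_sub (A : Matrix V V ℝ) (c : ℝ) :
    (A - scalar V c).rank + Module.finrank ℝ (Module.End.eigenspace (toLin' A) c) =
      Fintype.card V := by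
  have h1 := LinearMap.finrank_range_add_finrank_ker (toLin' (A - scalar V c))
  have h2 : LinearMap.ker (toLin' (A - scalar V c)) = Module.End.eigenspace (toLin' A) c := by
    rw [Module.End.eigenspace_def]
    congr 1
    rw [map_sub]
    congr 1
    ext x y
    simp [Matrix.toLin'_apply, scalar_apply, Pi.single_apply]
  rw [h2, Module.finrank_fintype_fun_eq_card] at h1
  have h3 : (A - scalar V c).rank =
      Module.finrank ℝ (LinearMap.range (toLin' (A - scalar V c))) := by
    rw [Matrix.rank, Matrix.toLin'_apply']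
  rw [h3]
  exact h1

end Pool.Agent.J4H51.LR
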