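import Pool.Agent.J4H51.LR.Steps

/-!
# The bound for bipartite relations: assembly
-/

set_option autoImplicit false
set_option linter.unusedSectionVars false

namespace Pool.Agent.J4H51.LR

open Finset Matrix

theorem rank_zero {X Y : Type} [Fintype X] [Fintype Y] (E : X → Y → Prop)
    [∀ x y, Decidable (E x y)] (A : Matrix X Y ℝ) (K : ℝ) (hA : Wt E A K) (h : A.rank = 0) :
    ∑ y, (cod E y y : ℝ) = 0 := by
  have h1 := rank_ineq E A K hA.zero hA.one hA.le 1 (fun _ => 1) fun _ => zero_le_one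
  rw [h] at h1
  simp only [Nat.cast_zero, pow_one, zero_mul, one_mul] at h1
  exact pow_eq_zero_iff (two_ne_zero) |>.1 (le_antisymm h1 (sq_nonneg _))

theorem sum_rest {Y : Type} [Fintype Y] (d : Y → ℝ) (δ N : ℝ) (hδ : 0 ≤ δ)
    (hY : (Fintype.card Y : ℝ) ≤ N) [DecidablePred fun y => δ ≤ d y] :
    ∑ y, d y ≤ ∑ y ∈ univ.filter (fun y => δ ≤ d y), d y + N * δ := by
  rw [← sum_filter_add_sum_filter_not univ (fun y => δ ≤ d y)]
  refine add_le_add le_rfl ?_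
  calc ∑ y ∈ univ.filter (fun y => ¬ δ ≤ d y), d y
      ≤ ∑ y ∈ univ.filter (fun y => ¬ δ ≤ d y), δ :=
        sum_le_sum fun y hy => (not_le.1 (mem_filter.1 hy).2).le
    _ = ((univ.filter (fun y => ¬ δ ≤ d y)).card : ℝ) * δ := by rw [sum_const, nsmul_eq_mul]
    _ ≤ N * δ := by
        refine mul_le_mul_of_nonneg_right (le_trans ?_ hY) hδ
        exact_mod_cast card_le_univ _

theorem powers (a b c N q : ℝ) (k : ℕ) :
    (a ^ k * q ^ k) * (b ^ k * (c ^ k * N ^ k)) = (a * b * c * N * q) ^ k := by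
  simp only [mul_pow]
  ring

/-- even `s` -/
theorem bip_even (r t : ℕ) (hr : 1 ≤ r) (K : ℝ) (hK : 1 ≤ K) : ∃ C : ℝ, 0 ≤ C ∧
    ∀ (X Y : Type) [Fintype X] [Fintype Y] (E : X → Y → Prop) [∀ x y, Decidable (E x y)]
      (A : Matrix X Y ℝ) (N : ℝ), Free E (2 * r) t → Wt E A K → 1 ≤ N →
      (Fintype.card X : ℝ) ≤ N → (Fintype.card Y : ℝ) ≤ N →
      ∑ y, (cod E y y : ℝ) ≤ C * N * √(A.rank) ^ (2 * r - 1) := by
  set L : ℝ := K ^ 4 * (4 * r) ^ 2 with hLd
  have hr1 : (1 : ℝ) ≤ r := by exact_mod_cast hr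
  have hL1 : 1 ≤ L := by
    rw [hLd]
    have h1 : (1 : ℝ) ≤ K ^ 4 := one_le_pow₀ hK
    have h2 : (1 : ℝ) ≤ (4 * (r : ℝ)) ^ 2 := one_le_pow₀ (by linarith)
    nlinarith
  set C₁ : ℝ := (2 * t * L ^ r + 1) * (2 * ((2 * r : ℕ) : ℝ)) * (t + 1) with hC₁
  have hC₁0 : 0 ≤ C₁ := by positivity
  refine ⟨C₁ + 2 * L, by positivity, ?_⟩
  intro X Y _ _ E _ A N hf hA hN hX hY
  classical
  rcases Nat.eq_zero_or_pos A.rank with h0 | h0
  · rw [rank_zero E A K hA h0]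
    positivity
  have hρ1 : (1 : ℝ) ≤ A.rank := by exact_mod_cast h0
  set ρ : ℝ := (A.rank : ℝ) with hρ
  set R : ℝ := √ρ with hR
  have hR2 : R ^ 2 = ρ := Real.sq_sqrt (by linarith)
  have hR1 : 1 ≤ R := by
    rw [hR]
    exact Real.one_le_sqrt.2 hρ1
  set δ : ℝ := √(2 * L * ρ) with hδ
  have hδ2 : δ ^ 2 = 2 * L * ρ := Real.sq_sqrt (by positivity)
  have hδ0 : 0 < δ := Real.sqrt_pos.2 (by positivity)
  have hδR : δ ≤ 2 * L * R ^ (2 * r - 1) := by
    have h1 : δ ≤ 2 * L * R := by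
      refine Real.sqrt_le_iff.2 ⟨by positivity, ?_⟩
      rw [mul_pow, hR2]
      have : 2 * L ≤ (2 * L) ^ 2 := by nlinarith
      exact mul_le_mul_of_nonneg_right this (by linarith)
    refine h1.trans (mul_le_mul_of_nonneg_left ?_ (by positivity))
    exact le_self_pow₀ hR1 (by omega)
  have h1 := sum_rest (fun y : Y => (cod E y y : ℝ)) δ N hδ0.le hY
  set Z : Finset Y := univ.filter (fun y => δ ≤ (cod E y y : ℝ)) with hZ
  have hm := few E r t hr hf A K hA Z L δ hLd hδ0 hδ2.ge fun y hy => (mem_filter.1 hy).2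
  have hk := kst E (2 * r) t (by omega) hf Z
  have hmN : (Z.card : ℝ) ≤ N := le_trans (by exact_mod_cast card_le_univ _) hY
  set m : ℝ := (Z.card : ℝ) with hmd
  have hm0 : 0 ≤ m := Nat.cast_nonneg _
  set e : ℝ := ∑ y ∈ Z, (cod E y y : ℝ) with he
  have he0 : 0 ≤ e := sum_nonneg fun _ _ => Nat.cast_nonneg _
  have h2 : e ^ (2 * r) ≤ (C₁ * N * R ^ (2 * r - 1)) ^ (2 * r) := by
    refine hk.trans ?_
    have a1 : m ^ (2 * r - 1) ≤ (2 * t * L ^ r + 1) ^ (2 * r) * (R ^ (2 * r - 1)) ^ (2 * r) := by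
      have b1 : m ≤ (2 * t * L ^ r + 1) * R ^ (2 * r) := by
        refine hm.trans ?_
        rw [mul_pow, pow_mul, hR2, ← mul_assoc]
        refine mul_le_mul_of_nonneg_right (by linarith) (by positivity)
      calc m ^ (2 * r - 1) ≤ ((2 * t * L ^ r + 1) * R ^ (2 * r)) ^ (2 * r - 1) :=
            pow_le_pow_left₀ hm0 b1 _
        _ = (2 * t * L ^ r + 1) ^ (2 * r - 1) * (R ^ (2 * r - 1)) ^ (2 * r) := by
            rw [mul_pow, ← pow_mul, ← pow_mul, mul_comm (2 * r) (2 * r - 1)]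
        _ ≤ _ := by
            refine mul_le_mul_of_nonneg_right (pow_le_pow_right₀ ?_ (by omega)) (by positivity)
            have : (0 : ℝ) ≤ 2 * t * L ^ r := by positivity
            linarith
    have a2 : (t : ℝ) * (Fintype.card X : ℝ) ^ (2 * r) + m ≤ (t + 1) ^ (2 * r) * N ^ (2 * r) := by
      have b1 : (Fintype.card X : ℝ) ^ (2 * r) ≤ N ^ (2 * r) :=
        pow_le_pow_left₀ (Nat.cast_nonneg _) hX _
      have b2 : m ≤ N ^ (2 * r) := hmN.trans (le_self_pow₀ hN (by omega))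
      have b3 : (t : ℝ) + 1 ≤ (t + 1) ^ (2 * r) :=
        le_self_pow₀ (by have : (0 : ℝ) ≤ t := Nat.cast_nonneg _
                         linarith) (by omega)
      have b4 : (0 : ℝ) ≤ N ^ (2 * r) := by positivity
      calc (t : ℝ) * (Fintype.card X : ℝ) ^ (2 * r) + m ≤ t * N ^ (2 * r) + N ^ (2 * r) :=
            add_le_add (mul_le_mul_of_nonneg_left b1 (Nat.cast_nonneg _)) b2
        _ = (t + 1) * N ^ (2 * r) := by ring
        _ ≤ _ := mul_le_mul_of_nonneg_right b3 b4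
    calc m ^ (2 * r - 1) * ((2 * ((2 * r : ℕ) : ℝ)) ^ (2 * r) *
          (t * (Fintype.card X : ℝ) ^ (2 * r) + m))
        ≤ ((2 * t * L ^ r + 1) ^ (2 * r) * (R ^ (2 * r - 1)) ^ (2 * r)) *
          ((2 * ((2 * r : ℕ) : ℝ)) ^ (2 * r) * ((t + 1) ^ (2 * r) * N ^ (2 * r))) := by
          refine mul_le_mul a1 (mul_le_mul_of_nonneg_left a2 (by positivity)) (by positivity)
            (by positivity)
      _ = (C₁ * N * R ^ (2 * r - 1)) ^ (2 * r) := powers _ _ _ _ _ _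
  have h3 : e ≤ C₁ * N * R ^ (2 * r - 1) :=
    le_of_pow_le_pow_left₀ (by omega) (by positivity) h2
  calc ∑ y, (cod E y y : ℝ) ≤ e + N * δ := h1
    _ ≤ C₁ * N * R ^ (2 * r - 1) + N * (2 * L * R ^ (2 * r - 1)) :=
        add_le_add h3 (mul_le_mul_of_nonneg_left hδR (by linarith))
    _ = (C₁ + 2 * L) * N * R ^ (2 * r - 1) := by ring

end Pool.Agent.J4H51.LR
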