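import Mathlib.Algebra.BigOperators.Ring.Finset
import Mathlib.Algebra.Order.Chebyshev
import Mathlib.Data.Nat.Choose.Basic
import Mathlib.Data.Real.Basic
import Mathlib.Data.Finset.Powerset
import Mathlib.Tactic

/-!
# Moments of the codegrees
-/

set_option autoImplicit false
set_option linter.unusedSectionVars false

namespace Pool.Agent.J4H51.LR

open Finset

variable {X Y : Type} [Fintype X] [Fintype Y] (E : X → Y → Prop) [∀ x y, Decidable (E x y)]

/-- the indicator -/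
def ind (x : X) (y : Y) : ℝ := if E x y then 1 else 0

/-- the number of common neighbours of two columns -/
def cod (y y' : Y) : ℕ := (univ.filter fun x => E x y ∧ E x y').card

theorem cod_eq (y y' : Y) : (cod E y y' : ℝ) = ∑ x, ind E x y * ind E x y' := by
  rw [cod, card_filter]
  push_cast
  refine sum_congr rfl fun x _ => ?_
  unfold ind
  by_cases h1 : E x y <;> by_cases h2 : E x y' <;> simp [h1, h2]

theorem deg_eq (y : Y) : (cod E y y : ℝ) = ∑ x, ind E x y := by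
  rw [cod_eq]
  refine sum_congr rfl fun x _ => ?_
  unfold ind
  by_cases h1 : E x y <;> simp [h1]

/-- the quadratic form of the `k`-th Hadamard power -/
def Q (k : ℕ) (z : Y → ℝ) : ℝ := ∑ y, ∑ y', z y * z y' * (cod E y y' : ℝ) ^ k

theorem Q_eq (k : ℕ) (z : Y → ℝ) :
    Q E k z = ∑ T : Fin k → X, (∑ y, z y * ∏ i, ind E (T i) y) ^ 2 := by
  have h1 : ∀ y y', z y * z y' * (cod E y y' : ℝ) ^ k =
      ∑ T : Fin k → X, (z y * ∏ i, ind E (T i) y) * (z y' * ∏ i, ind E (T i) y') := by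
    intro y y'
    rw [cod_eq, Fintype.sum_pow, mul_sum]
    refine sum_congr rfl fun T _ => ?_
    rw [prod_mul_distrib]
    ring
  unfold Q
  simp only [h1]
  have h2 : ∀ y, ∑ y', ∑ T : Fin k → X, (z y * ∏ i, ind E (T i) y) *
      (z y' * ∏ i, ind E (T i) y') = ∑ T : Fin k → X, ∑ y', (z y * ∏ i, ind E (T i) y) *
      (z y' * ∏ i, ind E (T i) y') := fun y => sum_comm
  rw [sum_congr rfl fun y _ => h2 y, sum_comm]
  refine sum_congr rfl fun T _ => ?_
  rw [sq, sum_mul_sum]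

theorem Q_nonneg (k : ℕ) (z : Y → ℝ) : 0 ≤ Q E k z := by
  rw [Q_eq]
  exact sum_nonneg fun _ _ => sq_nonneg _

theorem Q_mul (k : ℕ) (w : Y → ℝ) :
    Q E (k + 1) w = ∑ x, Q E k fun y => w y * ind E x y := by
  unfold Q
  rw [sum_comm]
  simp only []
  have h2 : ∀ y', ∑ y, w y * w y' * (cod E y y' : ℝ) ^ (k + 1) = ∑ x, ∑ y,
      w y * ind E x y * (w y' * ind E x y') * (cod E y y' : ℝ) ^ k := by
    intro y'
    rw [sum_comm]
    refine sum_congr rfl fun y _ => ?_
    rw [pow_succ, ← mul_assoc, cod_eq, mul_sum]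
    rw [← cod_eq]
    refine sum_congr rfl fun x _ => ?_
    ring
  rw [sum_congr rfl fun y' _ => h2 y', sum_comm]
  refine sum_congr rfl fun x _ => ?_
  rw [sum_comm]

theorem Q_succ (k : ℕ) (w : Y → ℝ) :
    Q E k (fun y => w y * (cod E y y : ℝ)) ≤ Fintype.card X * Q E (k + 1) w := by
  rw [Q_mul, Q_eq]
  have h1 : ∀ T : Fin k → X, (∑ y, w y * (cod E y y : ℝ) * ∏ i, ind E (T i) y) ^ 2 ≤
      Fintype.card X * ∑ x, (∑ y, w y * ind E x y * ∏ i, ind E (T i) y) ^ 2 := by
    intro T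
    have e1 : ∑ y, w y * (cod E y y : ℝ) * ∏ i, ind E (T i) y =
        ∑ x, ∑ y, w y * ind E x y * ∏ i, ind E (T i) y := by
      rw [sum_comm]
      refine sum_congr rfl fun y _ => ?_
      rw [deg_eq, mul_sum, sum_mul]
    rw [e1]
    exact sq_sum_le_card_mul_sum_sq
  refine (sum_le_sum fun T _ => h1 T).trans (le_of_eq ?_)
  rw [← mul_sum, sum_comm]
  congr 1
  refine sum_congr rfl fun x _ => ?_
  rw [Q_eq]

/-- the moment inequality -/
theorem choose_mom (k t : ℕ) (hfree : ∀ S : Finset X, S.card = k →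
    (univ.filter fun y => ∀ x ∈ S, E x y).card ≤ t) (w : Y → ℝ) :
    ∑ y, ∑ y', w y * w y' * ((cod E y y').choose k : ℝ) ≤
      t * ∑ y, w y ^ 2 * ((cod E y y).choose k : ℝ) := by
  have h0 : ∀ y y', ((cod E y y').choose k : ℝ) = ∑ S ∈ powersetCard k (univ : Finset X),
      (if ∀ x ∈ S, E x y then 1 else 0) * (if ∀ x ∈ S, E x y' then (1 : ℝ) else 0) := by
    intro y y'
    rw [cod, ← card_powersetCard]
    have e1 : powersetCard k (univ.filter fun x => E x y ∧ E x y') =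
        (powersetCard k (univ : Finset X)).filter fun S => (∀ x ∈ S, E x y) ∧ ∀ x ∈ S, E x y' := by
      ext S
      simp only [mem_powersetCard, mem_filter, subset_iff, mem_univ, true_and]
      constructor
      · rintro ⟨h1, h2⟩
        exact ⟨⟨fun _ _ => trivial, h2⟩, fun x hx => (h1 hx).1, fun x hx => (h1 hx).2⟩
      · rintro ⟨⟨_, h2⟩, h3, h4⟩
        exact ⟨fun x hx => ⟨h3 x hx, h4 x hx⟩, h2⟩
    rw [e1, card_filter]
    push_cast
    refine sum_congr rfl fun S _ => ?_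
    by_cases h1 : ∀ x ∈ S, E x y
    · by_cases h2 : ∀ x ∈ S, E x y'
      · rw [if_pos h1, if_pos h2, if_pos ⟨h1, h2⟩, mul_one]
      · rw [if_neg h2, if_neg fun h => h2 h.2, mul_zero]
    · rw [if_neg h1, if_neg fun h => h1 h.1, zero_mul]
  have h1 : ∑ y, ∑ y', w y * w y' * ((cod E y y').choose k : ℝ) =
      ∑ S ∈ powersetCard k (univ : Finset X), (∑ y, w y * if ∀ x ∈ S, E x y then 1 else 0) ^ 2 := by
    simp only [h0, mul_sum]
    rw [sum_congr rfl fun y _ => sum_comm, sum_comm]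
    refine sum_congr rfl fun S _ => ?_
    rw [sq, sum_mul_sum]
    refine sum_congr rfl fun y _ => sum_congr rfl fun y' _ => ?_
    ring
  have h2 : ∑ y, w y ^ 2 * ((cod E y y).choose k : ℝ) =
      ∑ S ∈ powersetCard k (univ : Finset X), ∑ y, w y ^ 2 * if ∀ x ∈ S, E x y then 1 else 0 := by
    simp only [h0, mul_sum]
    rw [sum_comm]
    refine sum_congr rfl fun S _ => sum_congr rfl fun y _ => ?_
    by_cases h1 : ∀ x ∈ S, E x y
    · rw [if_pos h1, mul_one]
    · rw [if_neg h1, mul_zero]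
  rw [h1, h2, mul_sum]
  refine sum_le_sum fun S hS => ?_
  have h3 := hfree S (mem_powersetCard.1 hS).2
  have e1 : ∑ y, w y * (if ∀ x ∈ S, E x y then (1 : ℝ) else 0) =
      ∑ y ∈ univ.filter (fun y => ∀ x ∈ S, E x y), w y := by
    rw [sum_filter]
    refine sum_congr rfl fun y _ => ?_
    split_ifs <;> simp
  have e2 : ∑ y, w y ^ 2 * (if ∀ x ∈ S, E x y then (1 : ℝ) else 0) =
      ∑ y ∈ univ.filter (fun y => ∀ x ∈ S, E x y), w y ^ 2 := by
    rw [sum_filter]
    refine sum_congr rfl fun y _ => ?_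
    split_ifs <;> simp
  rw [e1, e2]
  refine (sq_sum_le_card_mul_sum_sq).trans ?_
  refine mul_le_mul_of_nonneg_right (by exact_mod_cast h3) (sum_nonneg fun _ _ => sq_nonneg _)

theorem pow_le_choose (c k : ℕ) : c ^ k ≤ (2 * k) ^ k * (c.choose k + 1) := by
  rcases Nat.eq_zero_or_pos k with rfl | hk
  · simp
  rcases lt_or_ge c (2 * k) with h | h
  · calc c ^ k ≤ (2 * k) ^ k := Nat.pow_le_pow_left h.le k
      _ = (2 * k) ^ k * 1 := (mul_one _).symm
      _ ≤ _ := Nat.mul_le_mul_left _ (by omega)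
  · have h1 := Nat.pow_sub_le_descFactorial c k
    rw [Nat.descFactorial_eq_factorial_mul_choose] at h1
    have h2 : c ≤ 2 * (c + 1 - k) := by omega
    calc c ^ k ≤ (2 * (c + 1 - k)) ^ k := Nat.pow_le_pow_left h2 k
      _ = 2 ^ k * (c + 1 - k) ^ k := mul_pow _ _ _
      _ ≤ 2 ^ k * (k.factorial * c.choose k) := Nat.mul_le_mul_left _ h1
      _ ≤ 2 ^ k * (k ^ k * c.choose k) :=
          Nat.mul_le_mul_left _ (Nat.mul_le_mul_right _ (Nat.factorial_le_pow k))
      _ = (2 * k) ^ k * c.choose k := by rw [mul_pow]; ring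
      _ ≤ _ := Nat.mul_le_mul_left _ (by omega)

/-- the moment inequality for powers -/
theorem pow_mom (k t : ℕ) (hfree : ∀ S : Finset X, S.card = k →
    (univ.filter fun y => ∀ x ∈ S, E x y).card ≤ t) (w : Y → ℝ) (hw : ∀ y, 0 ≤ w y) :
    Q E k w ≤ (2 * k) ^ k * (t * ∑ y, w y ^ 2 * (cod E y y : ℝ) ^ k + (∑ y, w y) ^ 2) := by
  have h1 := choose_mom E k t hfree w
  have h2 : Q E k w ≤ ∑ y, ∑ y', w y * w y' * ((2 * k) ^ k * ((cod E y y').choose k + 1 : ℝ)) := by
    refine sum_le_sum fun y _ => sum_le_sum fun y' _ => ?_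
    refine mul_le_mul_of_nonneg_left ?_ (mul_nonneg (hw y) (hw y'))
    exact_mod_cast pow_le_choose (cod E y y') k
  have h3 : ∑ y, ∑ y', w y * w y' * ((2 * k) ^ k * ((cod E y y').choose k + 1 : ℝ)) =
      (2 * k) ^ k * (∑ y, ∑ y', w y * w y' * ((cod E y y').choose k : ℝ) + (∑ y, w y) ^ 2) := by
    rw [sq, sum_mul_sum, ← sum_add_distrib, mul_sum]
    refine sum_congr rfl fun y _ => ?_
    rw [← sum_add_distrib, mul_sum]
    refine sum_congr rfl fun y' _ => ?_
    ring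
  have h4 : ∑ y, w y ^ 2 * ((cod E y y).choose k : ℝ) ≤ ∑ y, w y ^ 2 * (cod E y y : ℝ) ^ k := by
    refine sum_le_sum fun y _ => mul_le_mul_of_nonneg_left ?_ (sq_nonneg _)
    exact_mod_cast Nat.choose_le_pow _ _
  rw [h3] at h2
  refine h2.trans (mul_le_mul_of_nonneg_left ?_ (by positivity))
  have h5 : (t : ℝ) * ∑ y, w y ^ 2 * ((cod E y y).choose k : ℝ) ≤
      t * ∑ y, w y ^ 2 * (cod E y y : ℝ) ^ k := mul_le_mul_of_nonneg_left h4 (Nat.cast_nonneg _)
  linarith

end Pool.Agent.J4H51.LR
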