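import Pool.Agent.J4H51.LR.Main

/-!
# The bound for bipartite relations, odd `s`
-/

set_option autoImplicit false
set_option linter.unusedSectionVars false

namespace Pool.Agent.J4H51.LR

open Finset Matrix

theorem quad_a {e B t D U : ℝ} (hB : 0 ≤ B) (ht : 0 ≤ t) (hD : 0 ≤ D) (hU : 0 ≤ U)
    (h : e ^ 2 ≤ B * U * (t * e + D * U)) : e ≤ (B * t + B * D + 1) * U := by
  by_contra hcon
  push Not at hcon
  have h1 : 0 ≤ B * t := mul_nonneg hB ht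
  have h2 : 0 ≤ B * D := mul_nonneg hB hD
  have h3 : U ≤ e := by nlinarith
  have h4 : 0 ≤ e := hU.trans h3
  have h5 : (B * t + B * D + 1) * U * e ≤ e * e := mul_le_mul_of_nonneg_right hcon.le h4
  have h6 : B * D * U * U ≤ B * D * U * e := mul_le_mul_of_nonneg_left h3 (mul_nonneg h2 hU)
  have h7 : U * e ≤ 0 := by nlinarith
  have h8 : 0 < e := by
    rcases h4.eq_or_lt with h | h
    · exfalso
      have : U = 0 := le_antisymm (h ▸ h3) hU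
      rw [this, mul_zero] at hcon
      linarith
    · exact h
  have h9 : U ≤ 0 := by
    by_contra hc
    push Not at hc
    have := mul_pos hc h8
    linarith
  have h10 : U = 0 := le_antisymm h9 hU
  rw [h10] at h
  have : e ^ 2 ≤ 0 := by simpa using h
  nlinarith

theorem quad_b {e B t U q : ℝ} (he : 0 ≤ e) (hB : 0 ≤ B) (ht : 0 ≤ t) (hU : 0 ≤ U) (hq : 0 < q)
    (hq2 : 2 * (B * U) ≤ q) (h : e ^ 2 ≤ B * U * (t * e + e ^ 2 * q⁻¹)) : e ≤ 2 * B * t * U := by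
  have h1 : B * U * (e ^ 2 * q⁻¹) ≤ e ^ 2 / 2 := by
    rw [← mul_assoc, ← div_eq_mul_inv, div_le_iff₀ hq]
    nlinarith [sq_nonneg e]
  rcases he.eq_or_lt with h2 | h2
  · rw [← h2]
    positivity
  · have h3 : e * e ≤ e * (2 * B * t * U) := by nlinarith
    exact le_of_mul_le_mul_left h3 h2

/-- odd `s` -/
theorem bip_odd (r t : ℕ) (hr : 1 ≤ r) (K : ℝ) (hK : 1 ≤ K) : ∃ C : ℝ, 0 ≤ C ∧
    ∀ (X Y : Type) [Fintype X] [Fintype Y] (E : X → Y → Prop) [∀ x y, Decidable (E x y)]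
      (A : Matrix X Y ℝ) (N : ℝ), Free E (2 * r + 1) t → Wt E A K → 1 ≤ N →
      (Fintype.card X : ℝ) ≤ N → (Fintype.card Y : ℝ) ≤ N →
      ∑ y, (cod E y y : ℝ) ≤ C * (N * (A.rank : ℝ) ^ r) := by
  set L : ℝ := K ^ 4 * (4 * ((r + 1 : ℕ) : ℝ)) ^ 2 with hLd
  have hr1 : (1 : ℝ) ≤ r := by exact_mod_cast hr
  have hL1 : 1 ≤ L := by
    rw [hLd]
    have h1 : (1 : ℝ) ≤ K ^ 4 := one_le_pow₀ hK
    have h2 : (1 : ℝ) ≤ (4 * ((r + 1 : ℕ) : ℝ)) ^ 2 := one_le_pow₀ (by push_cast; linarith)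
    nlinarith
  set B : ℝ := K ^ (4 * r) * (2 * ((2 * r + 1 : ℕ) : ℝ)) ^ (2 * r + 1) with hBd
  have hB1 : 1 ≤ B := by
    rw [hBd]
    have h1 : (1 : ℝ) ≤ K ^ (4 * r) := one_le_pow₀ hK
    have h2 : (1 : ℝ) ≤ (2 * ((2 * r + 1 : ℕ) : ℝ)) ^ (2 * r + 1) :=
      one_le_pow₀ (by push_cast; linarith)
    nlinarith
  set D : ℝ := 4 * t ^ 2 * L ^ (r + 2) with hDd
  have hD0 : 0 ≤ D := by positivity
  refine ⟨(B * t + B * D + 1 + 2 * L) + (2 * B * t + 2 * B), by positivity, ?_⟩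
  intro X Y _ _ E _ A N hf hA hN hX hY
  classical
  rcases Nat.eq_zero_or_pos A.rank with h0 | h0
  · rw [rank_zero E A K hA h0]
    positivity
  have hρ1 : (1 : ℝ) ≤ A.rank := by exact_mod_cast h0
  set ρ : ℝ := (A.rank : ℝ) with hρ
  set U : ℝ := N * ρ ^ r with hU
  have hU0 : 0 ≤ U := by positivity
  have hρr : ρ ≤ ρ ^ r := le_self_pow₀ hρ1 (by omega)
  have hρr1 : 1 ≤ ρ ^ r := one_le_pow₀ hρ1
  have ht0 : (0 : ℝ) ≤ t := Nat.cast_nonneg _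
  -- the inequality for all sets of columns
  have hodd : ∀ Z : Finset Y, (∀ y ∈ Z, (0 : ℝ) < (cod E y y : ℝ)) →
      (∑ y ∈ Z, (cod E y y : ℝ)) ^ 2 ≤ B * U * (t * ∑ y ∈ Z, (cod E y y : ℝ) +
        (∑ y ∈ Z, ((cod E y y : ℝ) ^ r)⁻¹) ^ 2) := by
    intro Z hZ
    have h1 := odd_step E r t hf A K hA Z hZ
    have hW : 0 ≤ (t : ℝ) * ∑ y ∈ Z, (cod E y y : ℝ) + (∑ y ∈ Z, ((cod E y y : ℝ) ^ r)⁻¹) ^ 2 := by
      have : 0 ≤ ∑ y ∈ Z, (cod E y y : ℝ) := sum_nonneg fun _ _ => Nat.cast_nonneg _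
      positivity
    refine h1.trans ?_
    set W : ℝ := (t : ℝ) * ∑ y ∈ Z, (cod E y y : ℝ) + (∑ y ∈ Z, ((cod E y y : ℝ) ^ r)⁻¹) ^ 2
    set c : ℝ := (2 * ((2 * r + 1 : ℕ) : ℝ)) ^ (2 * r + 1) with hc
    have hc0 : 0 ≤ c := by positivity
    have hK0 : 0 ≤ K ^ (4 * r) := by positivity
    calc ρ ^ r * (K ^ (4 * r) * (Fintype.card X * (c * W)))
        ≤ ρ ^ r * (K ^ (4 * r) * (N * (c * W))) := by
          refine mul_le_mul_of_nonneg_left (mul_le_mul_of_nonneg_left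
            (mul_le_mul_of_nonneg_right hX (mul_nonneg hc0 hW)) hK0) (by positivity)
      _ = B * U * W := by
          rw [hBd, hU]
          ring
  rcases le_or_gt (ρ ^ 2) N with hcase | hcase
  · -- small rank
    set δ : ℝ := √(2 * L * ρ) with hδ
    have h2L : 1 ≤ 2 * L * ρ := by nlinarith
    have hδ2 : δ ^ 2 = 2 * L * ρ := Real.sq_sqrt (by positivity)
    have hδ0 : 0 < δ := Real.sqrt_pos.2 (by positivity)
    have hδ1 : δ ≤ 2 * L * ρ ^ r := by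
      have h1 : δ ≤ 2 * L * ρ := by
        refine Real.sqrt_le_iff.2 ⟨by positivity, ?_⟩
        nlinarith
      exact h1.trans (mul_le_mul_of_nonneg_left hρr (by positivity))
    have h1 := sum_rest (fun y : Y => (cod E y y : ℝ)) δ N hδ0.le hY
    set Z : Finset Y := univ.filter (fun y => δ ≤ (cod E y y : ℝ)) with hZ
    have hZδ : ∀ y ∈ Z, δ ≤ (cod E y y : ℝ) := fun y hy => (mem_filter.1 hy).2
    have hm := few E (r + 1) t (by omega) hf.succ A K hA Z L δ hLd hδ0 hδ2.ge hZδ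
    have h2 := hodd Z fun y hy => lt_of_lt_of_le hδ0 (hZδ y hy)
    set m : ℝ := (Z.card : ℝ) with hmd
    set e : ℝ := ∑ y ∈ Z, (cod E y y : ℝ) with he
    have hσ : ∑ y ∈ Z, ((cod E y y : ℝ) ^ r)⁻¹ ≤ m * (δ ^ r)⁻¹ := by
      rw [← nsmul_eq_mul]
      refine Finset.sum_le_card_nsmul _ _ _ fun y hy => ?_
      exact inv_anti₀ (pow_pos hδ0 r) (pow_le_pow_left₀ hδ0.le (hZδ y hy) r)
    have hσ0 : 0 ≤ ∑ y ∈ Z, ((cod E y y : ℝ) ^ r)⁻¹ := sum_nonneg fun _ _ => by positivity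
    have hσ2 : (∑ y ∈ Z, ((cod E y y : ℝ) ^ r)⁻¹) ^ 2 ≤ D * U := by
      have b1 : (∑ y ∈ Z, ((cod E y y : ℝ) ^ r)⁻¹) ^ 2 ≤ (m * (δ ^ r)⁻¹) ^ 2 :=
        pow_le_pow_left₀ hσ0 hσ 2
      set q : ℝ := L * ρ with hq
      have hq1 : 1 ≤ q := by nlinarith
      have hqp : 0 < q ^ r := by positivity
      have b2 : (m * (δ ^ r)⁻¹) ^ 2 = m ^ 2 * ((2 * q) ^ r)⁻¹ := by
        rw [mul_pow, inv_pow, ← pow_mul, mul_comm r 2, pow_mul, hδ2, hq, mul_assoc]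
      have b3 : m ^ 2 ≤ (2 * t * q ^ (r + 1)) ^ 2 := pow_le_pow_left₀ (Nat.cast_nonneg _) hm 2
      have b4 : ((2 * q) ^ r)⁻¹ ≤ (q ^ r)⁻¹ :=
        inv_anti₀ hqp (pow_le_pow_left₀ (by positivity) (by linarith) r)
      have b5 : (2 * t * q ^ (r + 1)) ^ 2 * (q ^ r)⁻¹ = 4 * t ^ 2 * q ^ (r + 2) := by
        have : q ^ (r + 2) = q ^ (r + 1) * q ^ (r + 1) * (q ^ r)⁻¹ := by
          field_simp
          ring
        rw [this]
        ring
      calc (∑ y ∈ Z, ((cod E y y : ℝ) ^ r)⁻¹) ^ 2 ≤ m ^ 2 * ((2 * q) ^ r)⁻¹ := b1.trans_eq b2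
        _ ≤ (2 * t * q ^ (r + 1)) ^ 2 * (q ^ r)⁻¹ :=
            mul_le_mul b3 b4 (by positivity) (by positivity)
        _ = 4 * t ^ 2 * q ^ (r + 2) := b5
        _ = D * (ρ ^ r * ρ ^ 2) := by
            rw [hDd, hq, mul_pow, pow_add ρ r 2]
            ring
        _ ≤ D * (ρ ^ r * N) :=
            mul_le_mul_of_nonneg_left (mul_le_mul_of_nonneg_left hcase (by positivity)) hD0
        _ = D * U := by
            rw [hU]
            ring
    have h3 : e ^ 2 ≤ B * U * (t * e + D * U) := by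
      refine h2.trans (mul_le_mul_of_nonneg_left (by linarith) (by positivity))
    have h4 := quad_a (by linarith) ht0 hD0 hU0 h3
    have h5 : N * δ ≤ 2 * L * U := by
      calc N * δ ≤ N * (2 * L * ρ ^ r) := mul_le_mul_of_nonneg_left hδ1 (by linarith)
        _ = 2 * L * U := by rw [hU]; ring
    have h6 : 0 ≤ (2 * B * t + 2 * B) * U := by positivity
    calc ∑ y, (cod E y y : ℝ) ≤ e + N * δ := h1
      _ ≤ (B * t + B * D + 1) * U + 2 * L * U := add_le_add h4 h5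
      _ ≤ _ := by linarith
  · -- large rank
    set δ : ℝ := 2 * B * ρ ^ r with hδ
    have hδ0 : 0 < δ := by positivity
    have h1 := sum_rest (fun y : Y => (cod E y y : ℝ)) δ N hδ0.le hY
    set Z : Finset Y := univ.filter (fun y => δ ≤ (cod E y y : ℝ)) with hZ
    have hZδ : ∀ y ∈ Z, δ ≤ (cod E y y : ℝ) := fun y hy => (mem_filter.1 hy).2
    have h2 := hodd Z fun y hy => lt_of_lt_of_le hδ0 (hZδ y hy)
    set e : ℝ := ∑ y ∈ Z, (cod E y y : ℝ) with he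
    have he0 : 0 ≤ e := sum_nonneg fun _ _ => Nat.cast_nonneg _
    have hσ0 : 0 ≤ ∑ y ∈ Z, ((cod E y y : ℝ) ^ r)⁻¹ := sum_nonneg fun _ _ => by positivity
    have hσ : ∑ y ∈ Z, ((cod E y y : ℝ) ^ r)⁻¹ ≤ e * (δ ^ (r + 1))⁻¹ := by
      rw [he, sum_mul]
      refine sum_le_sum fun y hy => ?_
      have hd : (0 : ℝ) < cod E y y := lt_of_lt_of_le hδ0 (hZδ y hy)
      have b1 : ((cod E y y : ℝ) ^ r)⁻¹ = (cod E y y : ℝ) * ((cod E y y : ℝ) ^ (r + 1))⁻¹ := by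
        rw [pow_succ]
        field_simp
      rw [b1]
      exact mul_le_mul_of_nonneg_left (inv_anti₀ (pow_pos hδ0 _)
        (pow_le_pow_left₀ hδ0.le (hZδ y hy) _)) hd.le
    have hσ2 : (∑ y ∈ Z, ((cod E y y : ℝ) ^ r)⁻¹) ^ 2 ≤ e ^ 2 * (δ ^ (2 * r + 2))⁻¹ := by
      refine (pow_le_pow_left₀ hσ0 hσ 2).trans (le_of_eq ?_)
      rw [mul_pow, inv_pow, ← pow_mul]
      congr 3
      ring
    have h3 : e ^ 2 ≤ B * U * (t * e + e ^ 2 * (δ ^ (2 * r + 2))⁻¹) := by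
      refine h2.trans (mul_le_mul_of_nonneg_left (by linarith) (by positivity))
    have hq2 : 2 * (B * U) ≤ δ ^ (2 * r + 2) := by
      have b1 : 2 * B ≤ (2 * B) ^ (2 * r + 2) := le_self_pow₀ (by linarith) (by omega)
      have b2 : ρ ^ (r + 2) ≤ (ρ ^ r) ^ (2 * r + 2) := by
        rw [← pow_mul]
        refine pow_le_pow_right₀ hρ1 ?_
        nlinarith
      calc 2 * (B * U) = 2 * B * (ρ ^ r * N) := by rw [hU]; ring
        _ ≤ 2 * B * (ρ ^ r * ρ ^ 2) := mul_le_mul_of_nonneg_left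
            (mul_le_mul_of_nonneg_left hcase.le (by positivity)) (by positivity)
        _ = 2 * B * ρ ^ (r + 2) := by rw [← pow_add]
        _ ≤ (2 * B) ^ (2 * r + 2) * (ρ ^ r) ^ (2 * r + 2) :=
            mul_le_mul b1 b2 (by positivity) (by positivity)
        _ = δ ^ (2 * r + 2) := (mul_pow (2 * B) (ρ ^ r) (2 * r + 2)).symm
    have h4 := quad_b he0 (by linarith) ht0 hU0 (pow_pos hδ0 _) hq2 h3
    have h5 : N * δ = 2 * B * U := by
      rw [hδ, hU]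
      ring
    have h6 : 0 ≤ (B * t + B * D + 1 + 2 * L) * U := by positivity
    calc ∑ y, (cod E y y : ℝ) ≤ e + N * δ := h1
      _ ≤ 2 * B * t * U + 2 * B * U := add_le_add h4 h5.le
      _ ≤ _ := by linarith

end Pool.Agent.J4H51.LR
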