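import Pool.Agent.J4H51.LR.Mom
import Pool.Agent.J4H91.RK.Rank

/-!
# Rank, trace and Hadamard powers
-/

set_option autoImplicit false
set_option linter.unusedSectionVars false

namespace Pool.Agent.J4H51.LR

open Finset Matrix

variable {X Y : Type} [Fintype X] [Fintype Y]

/-- rank factorization -/
theorem exists_factor (A : Matrix X Y ℝ) : ∃ (P : X → Fin A.rank → ℝ) (R : Fin A.rank → Y → ℝ),
    ∀ x y, A x y = ∑ k, P x k * R k y := by
  classical
  have hW : Module.finrank ℝ (LinearMap.range A.mulVecLin) = A.rank := rfl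
  set b : Module.Basis (Fin A.rank) ℝ (LinearMap.range A.mulVecLin) :=
    Module.finBasisOfFinrankEq ℝ _ hW with hb
  have hmem : ∀ y, A.col y ∈ LinearMap.range A.mulVecLin := fun y =>
    ⟨Pi.single y 1, by rw [mulVecLin_apply, mulVec_single_one]⟩
  refine ⟨fun x k => (b k : X → ℝ) x, fun k y => b.repr ⟨A.col y, hmem y⟩ k, fun x y => ?_⟩
  have h1 := b.sum_repr ⟨A.col y, hmem y⟩
  have h2 := congrArg (fun v : LinearMap.range A.mulVecLin => (v : X → ℝ) x) h1
  simp only [Submodule.coe_sum, Submodule.coe_smul, Finset.sum_apply, Pi.smul_apply,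
    smul_eq_mul] at h2
  have h3 : A x y = A.col y x := rfl
  rw [h3, ← h2]
  exact sum_congr rfl fun k _ => mul_comm _ _

variable (E : X → Y → Prop) [∀ x y, Decidable (E x y)]

/-- the rank inequality -/
theorem rank_ineq (A : Matrix X Y ℝ) (K : ℝ) (h0 : ∀ x y, ¬ E x y → A x y = 0)
    (h1 : ∀ x y, E x y → 1 ≤ |A x y|) (hK : ∀ x y, |A x y| ≤ K) (r : ℕ) (w : Y → ℝ)
    (hw : ∀ y, 0 ≤ w y) :
    (∑ y, w y * (cod E y y : ℝ) ^ r) ^ 2 ≤
      (A.rank : ℝ) ^ r * (K ^ (4 * r) * Q E (2 * r) w) := by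
  classical
  obtain ⟨P, R, hPR⟩ := exists_factor A
  set G : Y → Y → ℝ := fun y y' => ∑ x, A x y * A x y' with hG
  set g : Fin A.rank → Y → ℝ := fun k y' => ∑ x, P x k * A x y' with hg
  have hGg : ∀ y y', G y y' = ∑ k, R k y * g k y' := by
    intro y y'
    simp only [hG, hg, mul_sum]
    rw [sum_comm]
    refine sum_congr rfl fun x _ => ?_
    rw [hPR x y, sum_mul]
    exact sum_congr rfl fun k _ => by ring
  set H : Matrix Y Y ℝ := Matrix.of fun y y' => √(w y) * √(w y') * G y y' ^ r with hH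
  have hHap : ∀ y y', H y y' = √(w y) * √(w y') * G y y' ^ r := fun _ _ => rfl
  have hGs : ∀ y y', G y y' = G y' y := fun y y' => sum_congr rfl fun x _ => mul_comm _ _
  have hherm : H.IsHermitian := by
    ext y y'
    rw [conjTranspose_apply, star_trivial, hHap, hHap, hGs y' y]
    ring
  have hrank : (H.rank : ℝ) ≤ (A.rank : ℝ) ^ r := by
    set B : Matrix Y (Fin r → Fin A.rank) ℝ := Matrix.of fun y p => √(w y) * ∏ i, R (p i) y
    set Z : Matrix (Fin r → Fin A.rank) Y ℝ := Matrix.of fun p y' => √(w y') * ∏ i, g (p i) y'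
    have h2 : H = B * Z := by
      ext y y'
      rw [hHap, mul_apply, hGg, Fintype.sum_pow, mul_sum]
      refine sum_congr rfl fun p _ => ?_
      show √(w y) * √(w y') * ∏ i, R (p i) y * g (p i) y' =
        (√(w y) * ∏ i, R (p i) y) * (√(w y') * ∏ i, g (p i) y')
      rw [prod_mul_distrib]
      ring
    have h3 : H.rank ≤ A.rank ^ r := by
      rw [h2]
      refine (rank_mul_le_left _ _).trans ((rank_le_card_width _).trans (le_of_eq ?_))
      rw [Fintype.card_fun, Fintype.card_fin, Fintype.card_fin]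
    exact_mod_cast h3
  have htr : ∑ y, w y * (cod E y y : ℝ) ^ r ≤ ∑ y, H y y := by
    refine sum_le_sum fun y _ => ?_
    rw [hHap, Real.mul_self_sqrt (hw y)]
    refine mul_le_mul_of_nonneg_left (pow_le_pow_left₀ (Nat.cast_nonneg _) ?_ r) (hw y)
    rw [deg_eq]
    refine sum_le_sum fun x _ => ?_
    unfold ind
    split_ifs with hx
    · have := h1 x y hx
      have h4 : (1 : ℝ) ≤ |A x y| * |A x y| := by nlinarith
      rwa [abs_mul_abs_self] at h4
    · exact mul_self_nonneg _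
  have hsq : ∑ y, ∑ y', H y y' ^ 2 ≤ K ^ (4 * r) * Q E (2 * r) w := by
    unfold Q
    rw [mul_sum]
    refine sum_le_sum fun y _ => ?_
    rw [mul_sum]
    refine sum_le_sum fun y' _ => ?_
    have h4 : |G y y'| ≤ K ^ 2 * (cod E y y' : ℝ) := by
      rw [cod_eq, mul_sum]
      refine (abs_sum_le_sum_abs _ _).trans (sum_le_sum fun x _ => ?_)
      unfold ind
      by_cases hx : E x y
      · by_cases hx' : E x y'
        · rw [if_pos hx, if_pos hx', abs_mul]
          have ha := hK x y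
          have hb := hK x y'
          have ha0 := abs_nonneg (A x y)
          have hb0 := abs_nonneg (A x y')
          nlinarith
        · rw [h0 x y' hx']
          simp [hx']
      · rw [h0 x y hx]
        simp [hx]
    have h5 : H y y' ^ 2 = w y * w y' * (|G y y'|) ^ (2 * r) := by
      rw [hHap, mul_pow, mul_pow, Real.sq_sqrt (hw y), Real.sq_sqrt (hw y'), pow_mul, sq_abs,
        ← pow_mul, ← pow_mul, mul_comm r 2]
    rw [h5]
    have h6 : |G y y'| ^ (2 * r) ≤ (K ^ 2 * (cod E y y' : ℝ)) ^ (2 * r) :=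
      pow_le_pow_left₀ (abs_nonneg _) h4 _
    calc w y * w y' * |G y y'| ^ (2 * r) ≤ w y * w y' * (K ^ 2 * (cod E y y' : ℝ)) ^ (2 * r) :=
          mul_le_mul_of_nonneg_left h6 (mul_nonneg (hw y) (hw y'))
      _ = K ^ (4 * r) * (w y * w y' * (cod E y y' : ℝ) ^ (2 * r)) := by
          rw [mul_pow, ← pow_mul]
          ring
  have hfin := Pool.Agent.J4H91.RK.trace_sq_le H hherm
  have h7 : 0 ≤ ∑ y, w y * (cod E y y : ℝ) ^ r :=
    sum_nonneg fun y _ => mul_nonneg (hw y) (by positivity)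
  calc (∑ y, w y * (cod E y y : ℝ) ^ r) ^ 2 ≤ (∑ y, H y y) ^ 2 := pow_le_pow_left₀ h7 htr 2
    _ ≤ H.rank * ∑ y, ∑ y', H y y' ^ 2 := hfin
    _ ≤ (A.rank : ℝ) ^ r * (K ^ (4 * r) * Q E (2 * r) w) := by
        refine mul_le_mul hrank hsq (sum_nonneg fun _ _ => sum_nonneg fun _ _ => sq_nonneg _)
          (by positivity)

end Pool.Agent.J4H51.LR
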