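import Mathlib.Algebra.Polynomial.Roots
import Mathlib.Algebra.Field.ZMod
import Mathlib.Data.Matrix.Basic
import Mathlib.LinearAlgebra.Matrix.Rank
import Mathlib.Analysis.Real.Sqrt
import Mathlib.Tactic

/-!
# Polynomials of degree at most `t` and the points of a plane
-/

set_option autoImplicit false

namespace Pool.Agent.J4H51.LR

open Finset Polynomial

/-- the point `y` is on the graph of the polynomial with the coefficients `x` -/
def On (p t : ℕ) (x : Fin (t + 1) → ZMod p) (y : ZMod p × ZMod p) : Prop :=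
  ∑ i, x i * y.1 ^ (i : ℕ) = y.2

theorem on_common (p t : ℕ) [Fact p.Prime] (x x' : Fin (t + 1) → ZMod p) (h : x ≠ x') :
    Nat.card {y : ZMod p × ZMod p // On p t x y ∧ On p t x' y} ≤ t := by
  classical
  set f : (ZMod p)[X] := ∑ i : Fin (t + 1), C (x i - x' i) * X ^ (i : ℕ) with hf
  have hcoeff : ∀ i : Fin (t + 1), f.coeff i = x i - x' i := by
    intro i
    rw [hf, finsetSum_coeff]
    simp only [coeff_C_mul, coeff_X_pow]
    rw [Finset.sum_eq_single i]
    · simp
    · intro j _ hj
      have : ¬ ((i : ℕ) = (j : ℕ)) := fun h => hj (Fin.ext h.symm)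
      simp [this]
    · intro h
      exact absurd (mem_univ i) h
  have hf0 : f ≠ 0 := by
    intro h0
    apply h
    funext i
    have h1 := hcoeff i
    rw [h0, coeff_zero] at h1
    exact (sub_eq_zero.1 h1.symm)
  have hdeg : f.natDegree ≤ t := by
    rw [hf]
    refine natDegree_sum_le_of_forall_le _ _ fun i _ => ?_
    refine (natDegree_C_mul_X_pow_le _ _).trans ?_
    have := i.isLt
    omega
  have heval : ∀ a : ZMod p, f.eval a = ∑ i, x i * a ^ (i : ℕ) - ∑ i, x' i * a ^ (i : ℕ) := by
    intro a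
    rw [hf, eval_finsetSum, ← Finset.sum_sub_distrib]
    refine sum_congr rfl fun i _ => ?_
    simp only [eval_mul, eval_C, eval_pow, eval_X]
    ring
  have h1 : Nat.card {y : ZMod p × ZMod p // On p t x y ∧ On p t x' y} ≤
      Nat.card {a : ZMod p // a ∈ f.roots.toFinset} := by
    refine Nat.card_le_card_of_injective (fun y => ⟨y.1.1, ?_⟩) ?_
    · rw [Multiset.mem_toFinset, mem_roots hf0, IsRoot.def, heval]
      have h2 := y.2.1
      have h3 := y.2.2
      unfold On at h2 h3
      rw [h2, h3, sub_self]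
    · intro y y' hyy
      have h2 : y.1.1 = y'.1.1 := congrArg Subtype.val hyy
      have h3 := y.2.1
      have h4 := y'.2.1
      unfold On at h3 h4
      apply Subtype.ext
      apply Prod.ext h2
      rw [← h3, ← h4, h2]
  refine h1.trans ?_
  rw [Nat.card_eq_fintype_card, Fintype.card_coe]
  exact (Multiset.toFinset_card_le _).trans ((card_roots' f).trans hdeg)

theorem on_card (p t : ℕ) [Fact p.Prime] :
    Nat.card {z : (Fin (t + 1) → ZMod p) × (ZMod p × ZMod p) // On p t z.1 z.2} =
      p ^ (t + 1) * p := by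
  have e : {z : (Fin (t + 1) → ZMod p) × (ZMod p × ZMod p) // On p t z.1 z.2} ≃
      (Fin (t + 1) → ZMod p) × ZMod p :=
    { toFun := fun z => (z.1.1, z.1.2.1)
      invFun := fun w => ⟨(w.1, (w.2, ∑ i, w.1 i * w.2 ^ (i : ℕ))), rfl⟩
      left_inv := by
        rintro ⟨⟨x, a, b⟩, hz⟩
        have h1 : ∑ i, x i * a ^ (i : ℕ) = b := hz
        simp only [h1]
      right_inv := fun w => rfl }
  rw [Nat.card_congr e, Nat.card_prod, Nat.card_fun, Nat.card_fin, Nat.card_zmod]

theorem on_rank (p t : ℕ) [Fact p.Prime]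
    (A : Matrix (Fin (t + 1) → ZMod p) (ZMod p × ZMod p) ℝ) :
    (Fintype.card (Fin (t + 1) → ZMod p) : ℝ) * √(A.rank) ≤
      Nat.card {z : (Fin (t + 1) → ZMod p) × (ZMod p × ZMod p) // On p t z.1 z.2} := by
  rw [on_card, Fintype.card_fun, Fintype.card_fin, ZMod.card]
  push_cast
  refine mul_le_mul_of_nonneg_left ?_ (by positivity)
  have h1 := A.rank_le_card_width
  rw [Fintype.card_prod, ZMod.card] at h1
  refine Real.sqrt_le_iff.2 ⟨Nat.cast_nonneg _, ?_⟩
  rw [sq]
  exact_mod_cast h1

end Pool.Agent.J4H51.LR
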