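import Pool.Agent.J4H51.LR.Bip

/-!
# The two inequalities between the degrees and the rank
-/

set_option autoImplicit false
set_option linter.unusedSectionVars false

namespace Pool.Agent.J4H51.LR

open Finset Matrix

variable {X Y : Type} [Fintype X] [Fintype Y] (E : X → Y → Prop) [∀ x y, Decidable (E x y)]

theorem even_step (r t : ℕ) (hf : Free E (2 * r) t) (A : Matrix X Y ℝ) (K : ℝ) (hA : Wt E A K)
    (Z : Finset Y) (δ : ℝ) (hδ : 0 < δ) (hZ : ∀ y ∈ Z, δ ≤ (cod E y y : ℝ)) :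
    (Z.card : ℝ) ^ 2 ≤ (A.rank : ℝ) ^ r * (K ^ (4 * r) * ((2 * ((2 * r : ℕ) : ℝ)) ^ (2 * r) *
      (t * Z.card + (Z.card * (δ ^ r)⁻¹) ^ 2))) := by
  classical
  set w : Y → ℝ := fun y => if y ∈ Z then ((cod E y y : ℝ) ^ r)⁻¹ else 0 with hw
  have hw0 : ∀ y, 0 ≤ w y := by
    intro y
    simp only [hw]
    split_ifs
    · positivity
    · exact le_rfl
  have hpos : ∀ y ∈ Z, (0 : ℝ) < cod E y y := fun y hy => lt_of_lt_of_le hδ (hZ y hy)
  have h1 := rank_ineq E A K hA.zero hA.one hA.le r w hw0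
  have e1 : ∑ y, w y * (cod E y y : ℝ) ^ r = Z.card := by
    rw [← Finset.sum_subset (subset_univ Z) (fun y _ hy => by simp [hw, hy])]
    rw [sum_congr rfl (g := fun _ => (1 : ℝ)) fun y hy => ?_]
    · simp
    · simp only [hw, if_pos hy]
      exact inv_mul_cancel₀ (pow_pos (hpos y hy) r).ne'
  have e2 : ∑ y, w y ^ 2 * (cod E y y : ℝ) ^ (2 * r) = Z.card := by
    rw [← Finset.sum_subset (subset_univ Z) (fun y _ hy => by simp [hw, hy])]
    rw [sum_congr rfl (g := fun _ => (1 : ℝ)) fun y hy => ?_]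
    · simp
    · simp only [hw, if_pos hy]
      have := (pow_pos (hpos y hy) r).ne'
      rw [mul_comm 2 r, pow_mul, ← mul_pow, inv_mul_cancel₀ this, one_pow]
  have e3 : ∑ y, w y ≤ Z.card * (δ ^ r)⁻¹ := by
    rw [← Finset.sum_subset (subset_univ Z) (fun y _ hy => by simp [hw, hy])]
    rw [← nsmul_eq_mul]
    refine Finset.sum_le_card_nsmul _ _ _ fun y hy => ?_
    simp only [hw, if_pos hy]
    exact inv_anti₀ (pow_pos hδ r) (pow_le_pow_left₀ hδ.le (hZ y hy) r)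
  have h2 := pow_mom E (2 * r) t hf w hw0
  rw [e1] at h1
  rw [e2] at h2
  have hs0 : 0 ≤ ∑ y, w y := sum_nonneg fun y _ => hw0 y
  have h3 : (∑ y, w y) ^ 2 ≤ (Z.card * (δ ^ r)⁻¹) ^ 2 := pow_le_pow_left₀ hs0 e3 2
  have hK : 0 ≤ K ^ (4 * r) := by
    have : Even (4 * r) := ⟨2 * r, by ring⟩
    exact this.pow_nonneg K
  refine h1.trans (mul_le_mul_of_nonneg_left (mul_le_mul_of_nonneg_left (h2.trans ?_) hK)
    (by positivity))
  refine mul_le_mul_of_nonneg_left ?_ (by positivity)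
  linarith

theorem odd_step (r t : ℕ) (hf : Free E (2 * r + 1) t) (A : Matrix X Y ℝ) (K : ℝ)
    (hA : Wt E A K) (Z : Finset Y) (hZ : ∀ y ∈ Z, (0 : ℝ) < (cod E y y : ℝ)) :
    (∑ y ∈ Z, (cod E y y : ℝ)) ^ 2 ≤ (A.rank : ℝ) ^ r * (K ^ (4 * r) * (Fintype.card X *
      ((2 * ((2 * r + 1 : ℕ) : ℝ)) ^ (2 * r + 1) * (t * ∑ y ∈ Z, (cod E y y : ℝ) +
        (∑ y ∈ Z, ((cod E y y : ℝ) ^ r)⁻¹) ^ 2)))) := by
  classical
  set w : Y → ℝ := fun y => if y ∈ Z then ((cod E y y : ℝ) ^ r)⁻¹ else 0 with hw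
  have hw0 : ∀ y, 0 ≤ w y := by
    intro y
    simp only [hw]
    split_ifs
    · positivity
    · exact le_rfl
  have h1 := rank_ineq E A K hA.zero hA.one hA.le r (fun y => w y * (cod E y y : ℝ))
    fun y => mul_nonneg (hw0 y) (Nat.cast_nonneg _)
  have e1 : ∑ y, w y * (cod E y y : ℝ) * (cod E y y : ℝ) ^ r = ∑ y ∈ Z, (cod E y y : ℝ) := by
    rw [← Finset.sum_subset (subset_univ Z) (fun y _ hy => by simp [hw, hy])]
    refine sum_congr rfl fun y hy => ?_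
    simp only [hw, if_pos hy]
    have := (pow_pos (hZ y hy) r).ne'
    field_simp
  have e2 : ∑ y, w y ^ 2 * (cod E y y : ℝ) ^ (2 * r + 1) = ∑ y ∈ Z, (cod E y y : ℝ) := by
    rw [← Finset.sum_subset (subset_univ Z) (fun y _ hy => by simp [hw, hy])]
    refine sum_congr rfl fun y hy => ?_
    simp only [hw, if_pos hy]
    have := (pow_pos (hZ y hy) r).ne'
    have e : (cod E y y : ℝ) ^ (2 * r + 1) = ((cod E y y : ℝ) ^ r) ^ 2 * cod E y y := by
      rw [pow_succ, ← pow_mul, mul_comm r 2]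
    rw [e, ← mul_assoc, ← mul_pow, inv_mul_cancel₀ this, one_pow, one_mul]
  have e3 : ∑ y, w y = ∑ y ∈ Z, ((cod E y y : ℝ) ^ r)⁻¹ := by
    rw [← Finset.sum_subset (subset_univ Z) (fun y _ hy => by simp [hw, hy])]
    refine sum_congr rfl fun y hy => ?_
    simp only [hw, if_pos hy]
  have h2 := pow_mom E (2 * r + 1) t hf w hw0
  have h3 := Q_succ E (2 * r) w
  rw [e1] at h1
  rw [e2, e3] at h2
  have hK : 0 ≤ K ^ (4 * r) := by
    have : Even (4 * r) := ⟨2 * r, by ring⟩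
    exact this.pow_nonneg K
  refine h1.trans (mul_le_mul_of_nonneg_left (mul_le_mul_of_nonneg_left (h3.trans ?_) hK)
    (by positivity))
  exact mul_le_mul_of_nonneg_left h2 (Nat.cast_nonneg _)

/-- few columns with large degree -/
theorem few (r t : ℕ) (hr : 1 ≤ r) (hf : Free E (2 * r) t) (A : Matrix X Y ℝ) (K : ℝ)
    (hA : Wt E A K) (Z : Finset Y) (L δ : ℝ) (hL : L = K ^ 4 * (4 * r) ^ 2) (hδ : 0 < δ)
    (hδ2 : 2 * L * A.rank ≤ δ ^ 2) (hZ : ∀ y ∈ Z, δ ≤ (cod E y y : ℝ)) :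
    (Z.card : ℝ) ≤ 2 * t * (L * A.rank) ^ r := by
  have h1 := even_step E r t hf A K hA Z δ hδ hZ
  set m : ℝ := (Z.card : ℝ) with hm
  have hm0 : 0 ≤ m := Nat.cast_nonneg _
  have hL0 : 0 ≤ L := by rw [hL]; positivity
  have e1 : (A.rank : ℝ) ^ r * (K ^ (4 * r) * ((2 * ((2 * r : ℕ) : ℝ)) ^ (2 * r) *
      (t * m + (m * (δ ^ r)⁻¹) ^ 2))) = (L * A.rank) ^ r * (t * m) +
        (L * A.rank) ^ r * (m ^ 2 * ((δ ^ 2) ^ r)⁻¹) := by
    have e2 : (2 * ((2 * r : ℕ) : ℝ)) ^ (2 * r) = ((4 * (r : ℝ)) ^ 2) ^ r := by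
      rw [← pow_mul]
      congr 1
      push_cast
      ring
    have a1 : K ^ (4 * r) = (K ^ 4) ^ r := pow_mul K 4 r
    have a2 : ((δ ^ 2) ^ r)⁻¹ = ((δ ^ r)⁻¹) ^ 2 := by
      rw [← pow_mul, mul_comm 2 r, pow_mul, inv_pow]
    have a3 : (L * (A.rank : ℝ)) ^ r = (K ^ 4) ^ r * ((4 * (r : ℝ)) ^ 2) ^ r * (A.rank : ℝ) ^ r := by
      rw [hL, mul_pow, mul_pow]
    rw [e2, a1, a2, a3]
    ring
  rw [e1] at h1
  have h2 : 2 * (L * A.rank) ^ r ≤ (δ ^ 2) ^ r := by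
    calc 2 * (L * A.rank) ^ r ≤ 2 ^ r * (L * A.rank) ^ r := by
          refine mul_le_mul_of_nonneg_right ?_ (by positivity)
          calc (2 : ℝ) = 2 ^ 1 := (pow_one _).symm
            _ ≤ 2 ^ r := pow_le_pow_right₀ (by norm_num) hr
      _ = (2 * L * A.rank) ^ r := by rw [← mul_pow, mul_assoc]
      _ ≤ _ := pow_le_pow_left₀ (by positivity) hδ2 r
  have hp : 0 < (δ ^ 2) ^ r := by positivity
  have h3 : (L * A.rank) ^ r * (m ^ 2 * ((δ ^ 2) ^ r)⁻¹) ≤ m ^ 2 / 2 := by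
    rw [← mul_assoc, ← div_eq_mul_inv, div_le_iff₀ hp]
    nlinarith [sq_nonneg m]
  rcases hm0.eq_or_lt with h | h
  · rw [← h]
    positivity
  · have h4 : m ^ 2 / 2 ≤ (L * A.rank) ^ r * (t * m) := by linarith
    have h5 : m * m ≤ m * (2 * t * (L * A.rank) ^ r) := by nlinarith
    exact le_of_mul_le_mul_left h5 h

end Pool.Agent.J4H51.LR
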